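import Pool.Agent.H438R3.BSD.NF3
import Pool.Agent.H390R3.HW.Gen

/-!
# Continuation of `L(E/K, s)` beyond the line of absolute convergence

For every elliptic curve over every number field, without any assumption on modularity: one-sided
bounds for the truncated Euler products at the centre, together with a continuation along the real
axis only, give a holomorphic continuation without zeros to a half plane; two-sided bounds give it
without any other hypothesis.
-/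

set_option autoImplicit false

open Filter Topology Finset NumberField IsDedekindDomain

namespace Pool.Agent.Results.MP_0d9be2_nt.RealAxisCriterion

variable {K : Type} [Field K] [NumberField K]

/-- The places not dividing twice the discriminant of the cubic. -/
def Good (a b : 𝓞 K) (v : HeightOneSpectrum (𝓞 K)) : Prop :=
  2 * (4 * a ^ 3 + 27 * b ^ 2) ∉ v.asIdeal

/-- The number of affine points of `y² = x³ + a x + b` over the residue field of `v`. -/
noncomputable def Np (a b : 𝓞 K) (v : HeightOneSpectrum (𝓞 K)) : ℕ :=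
  Nat.card {q : (𝓞 K ⧸ v.asIdeal) × (𝓞 K ⧸ v.asIdeal) // q.2 ^ 2 = q.1 ^ 3 +
    Ideal.Quotient.mk v.asIdeal a * q.1 + Ideal.Quotient.mk v.asIdeal b}

open Classical in
/-- `L` is, for `Re s > 3/2`, the Euler product of `y² = x³ + a x + b` over the good places. -/
def IsEuler (a b : 𝓞 K) (L : ℂ → ℂ) : Prop :=
  ∀ s : ℂ, (3 : ℝ) / 2 < s.re →
    HasProd (fun v : HeightOneSpectrum (𝓞 K) => if Good a b v then
      (1 - ((Ideal.absNorm v.asIdeal : ℂ) - (Np a b v : ℂ)) * (Ideal.absNorm v.asIdeal : ℂ) ^ (-s) +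
        (Ideal.absNorm v.asIdeal : ℂ) ^ (1 - 2 * s))⁻¹ else 1) (L s)

open Classical in
/-- The product of `#E(k_v) / N v` over the good places with `N v ≤ x`. -/
noncomputable def EP (a b : 𝓞 K) (x : ℕ) : ℝ :=
  ∏ᶠ v : HeightOneSpectrum (𝓞 K), if Good a b v ∧ Ideal.absNorm v.asIdeal ≤ x then
    ((Np a b v : ℝ) + 1) / (Ideal.absNorm v.asIdeal : ℝ) else 1

/-- The logarithmic average of `log EP(n) - κ log log n` over `2 ≤ n ≤ x`. -/
noncomputable def LA (a b : 𝓞 K) (κ : ℝ) (x : ℕ) : ℝ :=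
  (∑ n ∈ Finset.Icc 2 x, (Real.log (EP a b n) - κ * Real.log (Real.log n)) / n) / Real.log x

/-- `P` (given for `Re s > 3/2`) has an analytic continuation along the real axis to `s > θ`. -/
def AlongReal (θ : ℝ) (P : ℂ → ℂ) : Prop :=
  ∃ Φ : ℂ → ℂ, (∀ σ : ℝ, θ < σ → AnalyticAt ℂ Φ σ) ∧ ∀ s : ℂ, 3 / 2 < s.re → Φ s = P s

/-- `P` (given for `Re s > 3/2`) has a holomorphic continuation without zeros to `Re s > θ`. -/
def ZeroFreeTo (θ : ℝ) (P : ℂ → ℂ) : Prop :=
  ∃ F : ℂ → ℂ, DifferentiableOn ℂ F {s | θ < s.re} ∧ (∀ s : ℂ, θ < s.re → F s ≠ 0) ∧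
    ∀ s : ℂ, 3 / 2 < s.re → F s = P s

open Classical Pool.Agent.H438R3.BSD in
theorem loc_hyp (a b : 𝓞 K) (L : ℂ → ℂ) (hL : IsEuler a b L) :
    ∀ s : ℂ, 3 / 2 < s.re → HasProd (fun n : ℕ => Complex.exp
      (GenN.LLc (NF.good a b) (NF.cc a b) n s)) (L s) :=
  fun s hs => NF.prodNF a b (by linarith : 1 ≤ s.re) (hL s hs)

open Classical Pool.Agent.H438R3.BSD in
theorem log_EP (a b : 𝓞 K) (x : ℕ) :
    Real.log (EP a b x) = GenN.lE (GenN.ellc (NF.good a b) (NF.cc a b)) x :=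
  NF.log_EP a b x

theorem ev_log : ∀ᶠ x : ℕ in atTop, (1 : ℝ) < Real.log x :=
  (Real.tendsto_log_atTop.comp tendsto_natCast_atTop_atTop).eventually_gt_atTop _

open Classical Pool.Agent.H438R3.BSD Pool.Agent.H390R3.HW in
theorem avg_const (a b : 𝓞 K) (ε κ C : ℝ) (hε : ε = 1 ∨ ε = -1)
    (hb : ∀ᶠ x : ℕ in atTop, ε * LA a b κ x ≤ C) :
    ∃ C' : ℝ, ∀ n, 0 ≤ AS C' (GenN.mm (GenN.ellc (NF.good a b) (NF.cc a b)) ε κ) n := by
  refine GenN.exists_const2 (NF.locNF a b) ε κ hε C ?_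
  filter_upwards [hb, ev_log] with x hx hlog
  unfold LA at hx
  simp_rw [log_EP] at hx
  rw [← mul_div_assoc, div_le_iff₀ (by linarith)] at hx
  exact hx

open Classical in
/-- **Continuation of `L(E/K, s)` to a half plane.** -/
theorem result (K : Type) [Field K] [NumberField K] (a b : 𝓞 K) (L : ℂ → ℂ)
    (hL : IsEuler a b L) :
    (∀ κ C : ℝ, (∀ᶠ x : ℕ in atTop, LA a b κ x ≤ C) → AlongReal 1 L → ZeroFreeTo 1 L) ∧
    (∀ κ C : ℝ, (∀ᶠ x : ℕ in atTop, C ≤ LA a b κ x) → AlongReal 1 (fun s => (L s)⁻¹) →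
      ZeroFreeTo 1 L) ∧
    (∀ κ C : ℝ, (∀ᶠ x : ℕ in atTop, |LA a b κ x| ≤ C) → ZeroFreeTo 1 L) ∧
    (∀ θ C : ℝ, 1 < θ → θ ≤ 3 / 2 →
      ((∀ᶠ x : ℕ in atTop, Real.log (EP a b x) ≤ C * (x : ℝ) ^ (θ - 1)) →
        AlongReal θ L → ZeroFreeTo θ L) ∧
      ((∀ᶠ x : ℕ in atTop, -(C * (x : ℝ) ^ (θ - 1)) ≤ Real.log (EP a b x)) →
        AlongReal θ (fun s => (L s)⁻¹) → ZeroFreeTo θ L) ∧
      ((∀ᶠ x : ℕ in atTop, |Real.log (EP a b x)| ≤ C * (x : ℝ) ^ (θ - 1)) →
        ZeroFreeTo θ L)) := by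
  have hloc := Pool.Agent.H438R3.BSD.NF.locNF a b
  have hpr := loc_hyp a b L hL
  have e1 : ∀ θ : ℝ, AlongReal θ L → Pool.Agent.H390R3.HW.AlongReal θ
      (fun s => if (1 : ℝ) = 1 then L s else (L s)⁻¹) := by
    intro θ h
    have h' : Pool.Agent.H390R3.HW.AlongReal θ L := h
    simpa using h'
  have e2 : ∀ θ : ℝ, AlongReal θ (fun s => (L s)⁻¹) → Pool.Agent.H390R3.HW.AlongReal θ
      (fun s => if (-1 : ℝ) = 1 then L s else (L s)⁻¹) := by
    intro θ h
    have h1 : ¬ ((-1 : ℝ) = 1) := by norm_num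
    have h' : Pool.Agent.H390R3.HW.AlongReal θ (fun s => (L s)⁻¹) := h
    simpa only [if_neg h1] using h'
  refine ⟨fun κ C hb hΦ => ?_, fun κ C hb hΦ => ?_, fun κ C hb => ?_,
    fun θ C hθ hθ2 => ⟨fun hb hΦ => ?_, fun hb hΦ => ?_, fun hb => ?_⟩⟩
  · obtain ⟨C', hC'⟩ := avg_const a b 1 κ C (Or.inl rfl) (by simpa using hb)
    exact Pool.Agent.H390R3.HW.ext2 hloc 1 κ C' (Or.inl rfl) hC' L hpr (e1 1 hΦ)
  · obtain ⟨C', hC'⟩ := avg_const a b (-1) κ (-C) (Or.inr rfl) (by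
      filter_upwards [hb] with x hx
      linarith)
    exact Pool.Agent.H390R3.HW.ext2 hloc (-1) κ C' (Or.inr rfl) hC' L hpr (e2 1 hΦ)
  · obtain ⟨C', hC'⟩ := avg_const a b 1 κ C (Or.inl rfl) (by
      filter_upwards [hb] with x hx
      linarith [le_abs_self (LA a b κ x)])
    obtain ⟨D', hD'⟩ := avg_const a b (-1) κ C (Or.inr rfl) (by
      filter_upwards [hb] with x hx
      linarith [neg_abs_le (LA a b κ x)])
    exact Pool.Agent.H390R3.HW.ext2abs hloc κ C' D' hC' hD' L hpr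
  · obtain ⟨C', D, hG⟩ := Pool.Agent.H390R3.HW.ev1 hloc 1 C (θ - 1) (Or.inl rfl) (by linarith) (by
      filter_upwards [hb] with x hx
      rw [← log_EP]
      linarith)
    have := Pool.Agent.H390R3.HW.ext1 hloc 1 C' D (θ - 1) (Or.inl rfl) (by linarith)
      (by linarith) hG L hpr (by
        have h := e1 θ hΦ
        rwa [add_sub_cancel])
    rwa [add_sub_cancel] at this
  · obtain ⟨C', D, hG⟩ := Pool.Agent.H390R3.HW.ev1 hloc (-1) C (θ - 1) (Or.inr rfl) (by linarith) (by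
      filter_upwards [hb] with x hx
      rw [← log_EP]
      linarith)
    have := Pool.Agent.H390R3.HW.ext1 hloc (-1) C' D (θ - 1) (Or.inr rfl) (by linarith)
      (by linarith) hG L hpr (by
        have h := e2 θ hΦ
        rwa [add_sub_cancel])
    rwa [add_sub_cancel] at this
  · obtain ⟨D, hG⟩ := Pool.Agent.H390R3.HW.ev1abs
      (Pool.Agent.H438R3.BSD.GenN.ellc (Pool.Agent.H438R3.BSD.NF.good a b)
        (Pool.Agent.H438R3.BSD.NF.cc a b)) C (θ - 1) (by linarith) (by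
      filter_upwards [hb] with x hx
      rw [← log_EP]
      exact hx)
    have := Pool.Agent.H390R3.HW.ext1abs hloc D (θ - 1) (by linarith) hG L hpr
    rwa [add_sub_cancel] at this

end Pool.Agent.Results.MP_0d9be2_nt.RealAxisCriterion
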